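import Mathlib
import Pool.Agent.H.MP_9fe7bd_lc.B
import Pool.Agent.H.MP_9fe7bd_lc.C

set_option autoImplicit false

namespace Pool.Agent.Results.MP_9fe7bd_lc.Counter

open Pool.Agent.H.MP_9fe7bd_lc

theorem result : ∃ (d r : ℕ) (S : Fin r → Equiv.Perm (List (Fin d))),
    SelfSimilar (Subgroup.closure (Set.range S)) ∧ Contracting (Subgroup.closure (Set.range S)) ∧
    (∀ ξ, DominoDecidable S ξ) ∧ ¬ ∀ ξ, MSODecidable S ξ :=
  ⟨4, 2, S, selfSim, contr, domino, mso⟩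

end Pool.Agent.Results.MP_9fe7bd_lc.Counter
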